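import Pool.Agent.Helper92.RECT.Goals3
import Pool.Agent.Helper65.OH.GEO

/-!
# Project RECT, packet RNS: the numbers of the slab process are in the range
-/

set_option autoImplicit false

namespace Pool.Agent.Helper14.RECT

open Pool.Agent.Helper65.LinSpace Pool.Agent.Helper78.Mpc Pool.Agent.Helper28.Ram Finset
open Pool.Agent.Helper65.OH (Prm OneHead Conf Par InBox co GoodQ Fns)
open Pool.Agent.Helper92.RECT

theorem ifz_lt {c x y b : ℕ} (hx : x < b) (hy : y < b) : ifz c x y < b := by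
  unfold ifz
  split_ifs
  · exact hx
  · exact hy

theorem mix_lt {a b x y : ℕ} (hx : x < a) (hy : y < b) : x + a * y < a * b := by
  have h1 : a * (y + 1) ≤ a * b := Nat.mul_le_mul_left a hy
  rw [Nat.mul_succ] at h1
  omega

variable (s : Sp)

theorem cod_lt {u md i j t p : ℕ} (hu : u < 2 ^ (s.m.S + 1)) (hmd : md < 8)
    (hp : p < 2 ^ (s.m.κ * s.m.D)) : s.cod u md i j t p < 2 ^ (s.θ + s.m.κ * s.m.D) := by
  have h1 : t % 2 ^ s.te < 2 ^ s.te := Nat.mod_lt _ (by positivity)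
  have h2 := mix_lt (Nat.mod_lt j (by positivity : 0 < 2 ^ s.ν)) h1
  have h3 := mix_lt (Nat.mod_lt i (by positivity : 0 < 2 ^ s.ν)) h2
  have h4 := mix_lt hmd h3
  have h5 := mix_lt hu h4
  have e : 2 ^ (s.m.S + 1) * (8 * (2 ^ s.ν * (2 ^ s.ν * 2 ^ s.te))) = 2 ^ s.θ := by
    unfold Sp.θ
    rw [pow_add 2 (s.m.S + 1), pow_add 2 (3 + 2 * s.ν), pow_add 2 3, two_mul, pow_add 2 s.ν]
    ring
  rw [e] at h5
  have h6 := mix_lt h5 hp
  rw [← pow_add] at h6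
  unfold Sp.cod
  exact h6

theorem tab_lt' {κ D : ℕ} {c : ℕ → ℕ} (h : ∀ k < D, c k < 2 ^ κ) :
    tab (2 ^ κ) D c < 2 ^ (κ * D) := by
  rw [pow_mul]
  exact tab_lt h

theorem one_lt_pow (S : ℕ) : 1 < 2 ^ (S + 1) := by
  rw [pow_succ]
  have : 1 ≤ 2 ^ S := Nat.one_le_two_pow
  omega

theorem half_lt {κ : ℕ} (hκ : 2 ≤ κ) : 2 ^ (κ - 1) < 2 ^ κ :=
  Nat.pow_lt_pow_right (by norm_num) (by omega)

theorem c0_lt (hκ : 2 ≤ s.m.κ) : s.c0 < 2 ^ (s.m.κ * s.m.D) := by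
  unfold Sp.c0
  exact tab_lt' fun _ _ => half_lt hκ

theorem fl_lt (hκ : 2 ≤ s.m.κ) : s.fl < 2 ^ (s.θ + s.m.κ * s.m.D) :=
  cod_lt s (one_lt_pow _) (by norm_num) (c0_lt s hκ)

theorem en_lt (hκ : 2 ≤ s.m.κ) {u i j t p : ℕ} (hu : u < 2 ^ (s.m.S + 1))
    (hp : p < 2 ^ (s.m.κ * s.m.D)) : s.en u i j t p < 2 ^ (s.θ + s.m.κ * s.m.D) := by
  unfold Sp.en
  exact ifz_lt (fl_lt s hκ) (cod_lt s hu (by norm_num) hp)

theorem st0_lt {p u : ℕ} (hD : 0 < s.m.D) (hp : p < 2 ^ (s.m.κ * s.m.D))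
    (hu : u < 2 ^ s.m.κ) : s.st0 p u < 2 ^ (s.m.κ * s.m.D) := by
  unfold Sp.st0
  obtain ⟨D', hD'⟩ : ∃ D', s.m.D = D' + 1 := ⟨s.m.D - 1, by omega⟩
  have e0 : 2 ^ (s.m.κ * s.m.D) = 2 ^ s.m.κ * 2 ^ (s.m.κ * D') := by
    rw [hD', Nat.mul_succ, Nat.add_comm, pow_add]
  rw [e0] at hp ⊢
  have h1 : p / 2 ^ s.m.κ < 2 ^ (s.m.κ * D') := Nat.div_lt_of_lt_mul hp
  have h2 := mix_lt hu h1
  have h3 := Nat.div_add_mod p (2 ^ s.m.κ)
  have h4 : p - p % 2 ^ s.m.κ + u = u + 2 ^ s.m.κ * (p / 2 ^ s.m.κ) := by omega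
  rw [h4]
  exact h2

theorem cod_parts {z : ℕ} (hz : z < 2 ^ s.m.sg) :
    z % 2 ^ (s.m.S + 1) < 2 ^ (s.m.S + 1) ∧ z / 2 ^ (s.m.S + 1) < 2 ^ (s.m.κ * s.m.D) := by
  refine ⟨Nat.mod_lt _ (by positivity), ?_⟩
  unfold Pool.Agent.Helper65.OH.Prm.sg at hz
  rw [pow_add] at hz
  exact Nat.div_lt_of_lt_mul hz

theorem ce_lt {q : ℕ} (hq : q < 2 ^ (s.θ + s.m.κ * s.m.D)) : s.ce q < 2 ^ (s.m.κ * s.m.D) := by
  unfold Sp.ce
  rw [pow_add] at hq
  exact Nat.div_lt_of_lt_mul hq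

theorem bq_lt {q : ℕ} (hq : q < 2 ^ (s.θ + s.m.κ * s.m.D)) : s.bq q < 2 ^ s.m.sg := by
  unfold Sp.bq Pool.Agent.Helper65.OH.Prm.sg
  rw [pow_add 2 (s.m.S + 1) (s.m.κ * s.m.D)]
  refine mix_lt ?_ (ce_lt s hq)
  unfold Sp.wq
  exact Nat.mod_lt _ (by positivity)

theorem sq_lt (m : Prm) {q v : ℕ} (hq : q < 2 ^ m.sg) : m.sq q v < 2 ^ m.sg := by
  have hG := Pool.Agent.Helper65.OH.GEO
  unfold Pool.Agent.Helper65.OH.Prm.sq
  refine ifz_lt ?_ hq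
  unfold ifz
  split_ifs with h
  · exact (hG.code m 0 (m.cq q) (by positivity) fun k _ => hG.cq_lt m q k).1
  · refine (hG.code m (m.nu q v) _ ?_ ?_).1
    · unfold Pool.Agent.Helper65.OH.Prm.nu
      exact capN_lt _ _
    · intro k hk
      have h1 : eq01 (m.viol q (m.nu q v)) 0 ≠ 0 := by
        intro h0
        apply h
        unfold Pool.Agent.Helper65.OH.Prm.ok
        rw [h0]
        simp
      have h2 : m.viol q (m.nu q v) = 0 := by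
        by_contra h3
        apply h1
        unfold eq01
        rw [if_neg h3]
      unfold Pool.Agent.Helper65.OH.Prm.viol at h2
      rw [Finset.sum_eq_zero_iff] at h2
      have h3 := h2 k (Finset.mem_range.2 hk)
      have h4 : lt01 (m.cq q k + Pool.Agent.Helper65.OH.Prm.pl (m.nu q v) k -
          Pool.Agent.Helper65.OH.Prm.mi (m.nu q v) k) (2 ^ m.κ) ≠ 0 := by
        intro h5
        rw [h5, mul_zero] at h3
        omega
      by_contra h5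
      apply h4
      unfold lt01
      rw [if_neg h5]

theorem inn_lt (hκ : 2 ≤ s.m.κ) {q z : ℕ} (hz : z < 2 ^ s.m.sg) :
    s.inn q z < 2 ^ (s.θ + s.m.κ * s.m.D) := by
  obtain ⟨h1, h2⟩ := cod_parts s hz
  unfold Sp.inn
  refine ifz_lt (ifz_lt (en_lt s hκ h1 h2) (ifz_lt (fl_lt s hκ) ?_)) (ifz_lt (fl_lt s hκ) ?_)
  · exact cod_lt s (one_lt_pow _) (by norm_num) (c0_lt s hκ)
  · exact cod_lt s (one_lt_pow _) (by norm_num) (c0_lt s hκ)

theorem rns : RNS_stmt := by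
  intro D A w y s P P' hR d a V Tc o ho ha hV
  obtain ⟨eA, eN, eW, c₀, hpar⟩ := hR.par
  have hκ := hR.κ
  have hD : 0 < s.m.D := by rw [hpar.h_D]; exact hR.pos
  have hdig : ∀ L i, dig (2 ^ s.m.sg) L i < 2 ^ s.m.sg := fun L i =>
    dig_lt (by positivity) L i
  have hW : 2 ^ (s.m.κ - 1) + s.W - 1 < 2 ^ s.m.κ := by
    have h1 := hR.Wle
    obtain ⟨k, hk⟩ : ∃ k, s.m.κ = k + 2 := ⟨s.m.κ - 2, by omega⟩
    rw [hk] at h1 ⊢
    have e1 : k + 2 - 2 = k := by omega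
    have e2 : k + 2 - 1 = k + 1 := by omega
    rw [e1] at h1
    rw [e2, pow_add 2 k 2, pow_succ]
    have h2 : 1 ≤ 2 ^ k := Nat.one_le_two_pow
    omega
  have hlc : ∀ p, s.lC p < 2 ^ (s.m.κ * s.m.D) := by
    intro p
    unfold Sp.lC
    exact tab_lt' fun _ _ => Nat.mod_lt _ (by positivity)
  refine
    { hd := Nat.zero_lt_of_lt ho
      ho := ho
      N_lt := ?_
      W_lt := ?_
      q0_lt := ?_
      M0_lt := ?_
      ha := ha
      hV := hV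
      hal := hlc _ }
  · intro q v hq hv
    have hq' : q < 2 ^ (s.θ + s.m.κ * s.m.D) := hq
    show s.N q v < 2 ^ (s.θ + s.m.κ * s.m.D)
    unfold Sp.N
    refine ifz_lt (ifz_lt (ifz_lt (fl_lt s hκ) ?_) ?_) ?_
    · unfold Sp.N3
      obtain ⟨h1, h2⟩ := cod_parts s (hdig s.R (s.jx q))
      exact en_lt s hκ h1 (st0_lt s hD h2 hW)
    · unfold Sp.N2
      obtain ⟨h1, h2⟩ := cod_parts s (hdig s.L (s.ix q))
      exact en_lt s hκ h1 (st0_lt s hD h2 (half_lt hκ))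
    · unfold Sp.N1
      exact ifz_lt (inn_lt s hκ (sq_lt s.m (bq_lt s hq'))) (fl_lt s hκ)
  · intro q v hq hv
    show s.Wr q v < 2 ^ (s.m.S + 1)
    have hv' : v < 2 ^ (s.m.S + 1) := hv
    unfold Sp.Wr
    refine ifz_lt hv' (ifz_lt ?_ hv')
    unfold Pool.Agent.Helper65.OH.Prm.nw
    exact capN_lt _ _
  · show s.q0 < 2 ^ (s.θ + s.m.κ * s.m.D)
    unfold Sp.q0
    refine ifz_lt (ifz_lt (ifz_lt (fl_lt s hκ) ?_) ?_) ?_
    · exact cod_lt s (Nat.mod_lt _ (by positivity)) (by norm_num) (hlc _)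
    · exact cod_lt s (one_lt_pow _) (by norm_num) (c0_lt s hκ)
    · exact cod_lt s (one_lt_pow _) (by norm_num) (c0_lt s hκ)
  · intro p
    show s.M0 p < 2 ^ (s.m.S + 1)
    unfold Sp.M0 Pool.Agent.Helper28.OHS.cn
    rw [← hR.S]
    exact capN_lt _ _

end Pool.Agent.Helper14.RECT
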